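import Pool.Agent.H45.Coc

open MeasureTheory Pool.Agent.H45.Coc

namespace Pool.Agent.Results.MP_0b4a43_pr.Infinite

theorem result (G : Type) [Group G] [TopologicalSpace G] [IsTopologicalGroup G]
    [MeasurableSpace G] [BorelSpace G] (μ : Measure G) [IsProbabilityMeasure μ]
    (ha : Adapted μ) (hs : Symm μ) (f : G → ℝ) (hf : Continuous f) (hn : ∃ x y, f x ≠ f y)
    (hc : ConvRW μ f) : ¬ FiniteDimensional ℝ (orbitSpan f) := fun _ =>
  let ⟨x, y, h⟩ := hn
  h ((const μ ha hs f hf hc x).trans (const μ ha hs f hf hc y).symm)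

end Pool.Agent.Results.MP_0b4a43_pr.Infinite
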